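import Mathlib

set_option autoImplicit false

namespace Pool.Agent.P.MP_709c52_lc.Aug

open Finset

/-- An invariant that survives one request at a time yields an online rule. -/
theorem online_of_step {N V : Type*} {S : ℕ → Type*}
    (P : ∀ t, (Fin t → N) → (Fin t → V) → S t → Prop) (σ0 : S 0) (h0 : ∀ r a, P 0 r a σ0)
    (hs : ∀ t (r : Fin (t + 1) → N) (a : Fin t → V) (σ : S t), P t (Fin.init r) a σ →
      ∃ (v : V) (σ' : S (t + 1)), P (t + 1) r (Fin.snoc a v) σ') :
    ∃ A : (i : ℕ) → (Fin i → N) → N → V, ∀ (n : ℕ) (r : Fin n → N),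
      ∃ σ, P n r (fun i => A i (fun j => r (j.castLE i.isLt.le)) (r i)) σ := by
  choose v σ' hv using hs
  let st : ∀ t (r : Fin t → N), {p : (Fin t → V) × S t // P t r p.1 p.2} := fun t =>
    Nat.rec (motive := fun t => ∀ r : Fin t → N, {p : (Fin t → V) × S t // P t r p.1 p.2})
      (fun r => ⟨(Fin.elim0, σ0), h0 _ _⟩)
      (fun t ih r => ⟨(Fin.snoc (ih (Fin.init r)).1.1 (v t r _ _ (ih (Fin.init r)).2),
        σ' t r _ _ (ih (Fin.init r)).2), hv t r _ _ _⟩) t
  refine ⟨fun i h q => (st (i + 1) (Fin.snoc h q)).1.1 (Fin.last i), fun n r => ⟨(st n r).1.2, ?_⟩⟩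
  have e : ∀ n (r : Fin n → N), (st n r).1.1 = fun i : Fin n =>
      (st (i + 1) (Fin.snoc (fun j => r (j.castLE i.isLt.le)) (r i))).1.1 (Fin.last i) := by
    intro n
    induction n with
    | zero => exact fun r => funext fun i => i.elim0
    | succ n ih =>
      intro r
      funext i
      induction i using Fin.lastCases with
      | last => exact congrArg (fun x => (st (n + 1) x).1.1 (Fin.last n)) (Fin.snoc_init_self r).symm
      | cast i =>
        refine Eq.trans ?_ (congrFun (ih (Fin.init r)) i)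
        exact Fin.snoc_castSucc (α := fun _ => V) _ _ i
  exact e n r ▸ (st n r).2

variable {V ι : Type} [Fintype V] [DecidableEq V] [Fintype ι] [DecidableEq ι]

/-- Potentials that vanish on the free sites and respect the arcs. -/
def Feas (W : ι → V → ℝ) (M : ι → V) (F : Finset V) (φ : V → ℝ) : Prop :=
  (∀ v ∈ F, φ v ≤ 0) ∧ ∀ i b, φ (M i) ≤ W i b + φ b

omit [Fintype V] [Fintype ι] [DecidableEq ι] in
lemma greatest {W : ι → V → ℝ} {M : ι → V} {F : Finset V} {a : V} (ha : a ∈ F)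
    (hM : ∀ v ∉ F, ∃ i, M i = v) {φ0 : V → ℝ} (h0 : Feas W M F φ0) :
    ∃ ψ, Feas W M F ψ ∧ ∀ φ, Feas W M F φ → ∀ v, φ v ≤ ψ v := by
  have ne : ∀ v, {x | ∃ φ, Feas W M F φ ∧ φ v = x}.Nonempty := fun v => ⟨_, φ0, h0, rfl⟩
  have bd : ∀ v, BddAbove {x | ∃ φ, Feas W M F φ ∧ φ v = x} := fun v => by
    by_cases hv : v ∈ F
    · exact ⟨0, fun x ⟨φ, h, e⟩ => e ▸ h.1 v hv⟩
    · obtain ⟨i, rfl⟩ := hM v hv
      exact ⟨W i a, fun x ⟨φ, h, e⟩ => by linarith [h.1 a ha, h.2 i a]⟩
  refine ⟨fun v => sSup {x | ∃ φ, Feas W M F φ ∧ φ v = x}, ⟨fun v hv => ?_, fun i b => ?_⟩,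
    fun φ h v => le_csSup (bd v) ⟨φ, h, rfl⟩⟩
  · exact csSup_le (ne v) fun x ⟨φ, h, e⟩ => e ▸ h.1 v hv
  · exact csSup_le (ne _) fun x ⟨φ, h, e⟩ => by
      linarith [h.2 i b, le_csSup (bd b) ⟨φ, h, rfl⟩]

omit [DecidableEq ι] in
lemma tight {W : ι → V → ℝ} {M : ι → V} {F U : Finset V} {ψ : V → ℝ} (h : Feas W M F ψ)
    (hg : ∀ φ, Feas W M F φ → ∀ v, φ v ≤ ψ v) (hU : F ⊆ U) {a : V} (ha : a ∈ U) {j : ι}
    (hj : M j ∉ U) : ∃ i b, M i ∉ U ∧ b ∈ U ∧ ψ (M i) = W i b + ψ b := by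
  obtain ⟨⟨i, b⟩, h1, h2⟩ := exists_min_image
    (univ.filter fun p : ι × V => M p.1 ∉ U ∧ p.2 ∈ U) (fun p => W p.1 p.2 + ψ p.2 - ψ (M p.1))
    ⟨(j, a), by simp [ha, hj]⟩
  obtain ⟨h3, h4⟩ := (mem_filter.1 h1).2
  refine ⟨i, b, h3, h4, le_antisymm (h.2 i b) ?_⟩
  have h5 := h.2 i b
  have := hg (fun u => if u ∈ U then ψ u else ψ u + (W i b + ψ b - ψ (M i)))
    ⟨fun v hv => by simpa [hU hv] using h.1 v hv, fun i' b' => by
      have h6 := h.2 i' b'
      by_cases c1 : M i' ∈ U <;> by_cases c2 : b' ∈ U <;> simp only [c1, c2, if_true, if_false]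
      · exact h6
      · linarith
      · linarith [h2 (i', b') (by simp [c1, c2])]
      · linarith⟩ (M i)
  simp only [h3, if_false] at this
  linarith

variable {N : Type*} [PseudoMetricSpace N] (s : V → N) (c : ℝ)

/-- Weight of the move of request `i` from `M i` to `b`. -/
def wt (r : ι → N) (M : ι → V) (i : ι) (b : V) : ℝ :=
  (c - 1) * dist (s (M i)) (r i) + (c + 1) * dist (s b) (r i)

/-- A unit of load travels from `v` to a free site along tight arcs that start in `U`. -/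
def Push (r : ι → N) (M : ι → V) (F U : Finset V) (ψ : V → ℝ) (v : V) : Prop :=
  ∃ (M' : ι → V) (a : V), a ∈ F ∧
    (∀ h : V → ℕ, ∑ i, h (M' i) + h v = ∑ i, h (M i) + h a) ∧
    (∀ i, M' i = M i ∨ (M i ∈ U ∧ ψ (M i) = wt s c r M i (M' i) + ψ (M' i))) ∧
    c * dist (s v) (s a) + ∑ i, dist (s (M' i)) (r i) ≤ ψ v + ∑ i, dist (s (M i)) (r i)

lemma push (hc : 0 ≤ c) {r : ι → N} {M : ι → V} {F : Finset V} {ψ : V → ℝ}
    (h : Feas (wt s c r M) M F ψ) (hg : ∀ φ, Feas (wt s c r M) M F φ → ∀ v, φ v ≤ ψ v)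
    {a : V} (ha : a ∈ F) (hM : ∀ v ∉ F, ∃ i, M i = v) (n : ℕ) :
    ∀ U : Finset V, Uᶜ.card = n → F ⊆ U → (∀ v ∈ U, Push s c r M F U ψ v) →
      ∀ v, Push s c r M F univ ψ v := by
  induction n with
  | zero =>
    intro U h1 _ h3 v
    obtain rfl : U = univ := by simpa using h1
    exact h3 v (mem_univ v)
  | succ n ih =>
    intro U h1 h2 h3
    obtain ⟨u, hu⟩ : Uᶜ.Nonempty := card_pos.1 (by omega)
    obtain ⟨j, rfl⟩ := hM u fun hF => mem_compl.1 hu (h2 hF)
    obtain ⟨i, b, hi, hb, e⟩ := tight h hg h2 (h2 ha) (mem_compl.1 hu)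
    refine ih (insert (M i) U) (by
      rw [compl_insert, card_erase_of_mem (mem_compl.2 hi), h1]
      rfl) (h2.trans (subset_insert _ _)) fun v hv => ?_
    rcases mem_insert.1 hv with rfl | hv
    · obtain ⟨M', a', k1, k2, k3, k4⟩ := h3 b hb
      have ei : M' i = M i := (k3 i).resolve_right fun x => hi x.1
      have up : ∀ {β : Type} [AddCommMonoid β] (f : ι → V → β),
          ∑ l, f l (Function.update M' i b l) + f i (M i) = ∑ l, f l (M' l) + f i b := by
        intro β _ f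
        rw [← sum_erase_add univ _ (mem_univ i),
          ← sum_erase_add univ (fun l => f l (M' l)) (mem_univ i), Function.update_self, ei,
          sum_congr rfl fun l hl => by rw [Function.update_of_ne (ne_of_mem_erase hl)]]
        abel
      refine ⟨Function.update M' i b, a', k1, fun g => (up fun _ => g).trans (k2 g), fun l => ?_, ?_⟩
      · by_cases hl : l = i
        · subst hl
          exact Or.inr ⟨mem_insert_self _ _, by rw [Function.update_self, e]⟩
        · rw [Function.update_of_ne hl]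
          exact (k3 l).imp_right fun x => ⟨mem_insert_of_mem x.1, x.2⟩
      · have k5 := up fun l u => dist (s u) (r l)
        have k6 : dist (s (M i)) (s a') ≤
            dist (s (M i)) (r i) + dist (s b) (r i) + dist (s b) (s a') := by
          linarith [dist_triangle (s (M i)) (s b) (s a'),
            dist_triangle_right (s (M i)) (s b) (r i)]
        have k7 := mul_le_mul_of_nonneg_left k6 hc
        simp only [wt] at e
        linarith
    · obtain ⟨M', a', k1, k2, k3, k4⟩ := h3 v hv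
      exact ⟨M', a', k1, k2, fun l => (k3 l).imp_right fun x => ⟨mem_insert_of_mem x.1, x.2⟩, k4⟩

/-- Number of requests sent to `v`. -/
def ld (M : ι → V) (v : V) : ℕ := ∑ i, if M i = v then 1 else 0

/-- The invariant: `a` is the real assignment, `M` the virtual one and `ψ` the potential. -/
structure Inv (K : V → ℕ) (r : ι → N) (a M : ι → V) (ψ : V → ℝ) : Prop where
  same : ∀ v, ld M v = ld a v
  cap : ∀ v, ld a v ≤ K v
  pos : ∀ v, 0 ≤ ψ v
  feas : Feas (wt s c r M) M (univ.filter fun v => ld a v < K v) ψ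
  pay : ∀ o : ι → V, c * ∑ i, dist (s (a i)) (r i) + ∑ i, dist (s (M i)) (r i) ≤
    ∑ i, ((c + 1) * dist (s (o i)) (r i) + ψ (o i))

omit [DecidableEq ι] in
lemma sum_ld (M : ι → V) (f : V → ℝ) : ∑ v, ld M v * f v = ∑ i, f (M i) := by
  simp only [ld, Nat.cast_sum, sum_mul]
  rw [sum_comm]
  simp

omit [DecidableEq ι] in
lemma card_ld (M : ι → V) : ∑ v, ld M v = Fintype.card ι := by
  unfold ld
  rw [sum_comm]
  simp

lemma step (hc : 1 ≤ c) {K : V → ℕ} (hK : ∀ v, 1 ≤ K v) {t : ℕ} (r : Fin (t + 1) → N)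
    {a M : Fin t → V} {ψ : V → ℝ} (h : Inv s c K (Fin.init r) a M ψ) (ht : t + 1 ≤ ∑ v, K v) :
    ∃ (v : V) (M' : Fin (t + 1) → V) (ψ' : V → ℝ), Inv s c K r (Fin.snoc a v) M' ψ' := by
  obtain ⟨a0, ha0⟩ : ∃ v, v ∈ univ.filter fun v => ld a v < K v := by
    by_contra hn
    have h1 : ∑ v, K v ≤ ∑ v, ld a v :=
      sum_le_sum fun v _ => not_lt.1 fun x => hn ⟨v, by simpa using x⟩
    rw [card_ld, Fintype.card_fin] at h1
    omega
  have hM : ∀ v ∉ univ.filter fun v => ld a v < K v, ∃ i, M i = v := fun v hv => by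
    have h1 : ld M v ≠ 0 := by
      have := hK v
      have := h.same v
      simp only [mem_filter, mem_univ, true_and] at hv
      omega
    obtain ⟨i, -, hi⟩ := exists_ne_zero_of_sum_ne_zero h1
    exact ⟨i, by by_contra x; simp [x] at hi⟩
  obtain ⟨ψ', f1, f2⟩ := greatest ha0 hM h.feas
  have mono := f2 ψ h.feas
  obtain ⟨u, -, hu⟩ := exists_min_image univ
    (fun b => (c + 1) * dist (s b) (r (Fin.last t)) + ψ' b) ⟨a0, mem_univ _⟩
  obtain ⟨M', v, k1, k2, k3, k4⟩ := push s c (by linarith) f1 f2 ha0 hM _ _ rfl subset_rfl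
    (fun v hv => ⟨M, v, hv, fun _ => rfl, fun _ => Or.inl rfl, by
      simpa using (h.pos v).trans (mono v)⟩) u
  have l1 : ∀ (x : Fin t → V) (y w : V),
      ld (Fin.snoc x y : Fin (t + 1) → V) w = ld x w + if y = w then 1 else 0 := fun x y w => by
    simp only [ld, Fin.sum_univ_castSucc, Fin.snoc_castSucc, Fin.snoc_last]
  refine ⟨v, Fin.snoc M' u, ψ', fun w => ?_, fun w => ?_, fun w => (h.pos w).trans (mono w),
    ⟨fun w hw => f1.1 w ?_, fun i b => ?_⟩, fun o => ?_⟩
  · rw [l1, l1, ← h.same]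
    exact k2 fun x => if x = w then 1 else 0
  · have h1 := (mem_filter.1 k1).2
    have h2 := h.cap w
    rw [l1]
    split_ifs with e
    · subst e
      omega
    · omega
  · have h1 := (mem_filter.1 hw).2
    rw [l1] at h1
    exact mem_filter.2 ⟨mem_univ _, by omega⟩
  · induction i using Fin.lastCases with
    | last =>
      have h1 := hu b (mem_univ _)
      have h2 : 0 ≤ c * dist (s u) (r (Fin.last t)) := by positivity
      simp only [wt, Fin.snoc_last]
      linarith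
    | cast i =>
      have h1 := f1.2 i b
      simp only [wt, Fin.snoc_castSucc, Fin.init] at h1 ⊢
      rcases k3 i with e | ⟨-, e⟩
      · rwa [e]
      · have h2 : 0 ≤ c * dist (s (M' i)) (r i.castSucc) := by positivity
        simp only [wt, Fin.init] at e
        linarith
  · have h1 := h.pay (Fin.init o)
    have h2 := hu (o (Fin.last t)) (mem_univ _)
    have h3 : ∑ i : Fin t, ((c + 1) * dist (s (o i.castSucc)) (r i.castSucc) + ψ (o i.castSucc)) ≤
        ∑ i : Fin t, ((c + 1) * dist (s (o i.castSucc)) (r i.castSucc) + ψ' (o i.castSucc)) :=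
      sum_le_sum fun i _ => by linarith [mono (o i.castSucc)]
    have h4 := mul_le_mul_of_nonneg_left
      (dist_triangle (s v) (s u) (r (Fin.last t))) (by linarith : 0 ≤ c)
    rw [dist_comm (s v) (s u)] at h4
    simp only [Fin.sum_univ_castSucc, Fin.snoc_castSucc, Fin.snoc_last, Fin.init] at h1 k4 ⊢
    linarith

omit [DecidableEq ι] in
lemma final (hc : 1 < c) {K k : V → ℕ} (hk : ∀ v, c * k v ≤ K v) {r : ι → N} {a M : ι → V}
    {ψ : V → ℝ} (h : Inv s c K r a M ψ) (o : ι → V) (ho : ∀ v, ld o v ≤ k v) :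
    ∑ i, dist (s (a i)) (r i) ≤ (c + 1) / (c - 1) * ∑ i, dist (s (o i)) (r i) := by
  have h1 := h.pay o
  have h2 := sum_le_sum fun i (_ : i ∈ (univ : Finset ι)) => h.feas.2 i (o i)
  have h3 : c * ∑ i, ψ (o i) ≤ ∑ i, ψ (M i) := by
    rw [← sum_ld, ← sum_ld, mul_sum]
    refine sum_le_sum fun v _ => ?_
    by_cases hv : ld a v < K v
    · rw [le_antisymm (h.feas.1 v (by simpa using hv)) (h.pos v)]
      simp
    · have e1 : (K v : ℝ) ≤ ld M v := by
        rw [h.same]
        exact_mod_cast not_lt.1 hv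
      have e2 : (ld o v : ℝ) ≤ k v := by exact_mod_cast ho v
      rw [← mul_assoc]
      exact mul_le_mul_of_nonneg_right (by nlinarith [hk v]) (h.pos v)
  simp only [wt, sum_add_distrib, ← mul_sum] at h1 h2
  rw [div_mul_eq_mul_div, le_div_iff₀ (by linarith)]
  refine le_of_mul_le_mul_left ?_ (by linarith : 0 < c)
  nlinarith

/-- The online rule for capacities `K` against an optimum with capacities at most `K / c`. -/
theorem online [Nonempty V] (hc : 1 < c) (K : V → ℕ) :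
    ∃ A : (i : ℕ) → (Fin i → N) → N → V, (∀ v, 1 ≤ K v) → ∀ k : V → ℕ, (∀ v, c * k v ≤ K v) →
      ∀ (n : ℕ) (r : Fin n → N) (o : Fin n → V), (∀ v, ld o v ≤ k v) →
        (∀ v, ld (fun i : Fin n => A i (fun j => r (j.castLE i.isLt.le)) (r i)) v ≤ K v) ∧
        ∑ i : Fin n, dist (s (A i (fun j => r (j.castLE i.isLt.le)) (r i))) (r i) ≤
          (c + 1) / (c - 1) * ∑ i, dist (s (o i)) (r i) := by
  obtain ⟨A, hA⟩ := online_of_step (S := fun t => (Fin t → V) × (V → ℝ))
    (fun t r a σ => (∀ v, 1 ≤ K v) → t ≤ ∑ v, K v → Inv s c K r a σ.1 σ.2) (Fin.elim0, 0)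
    (fun r a _ _ => ⟨by simp [ld], by simp [ld], by simp, ⟨by simp, fun i => i.elim0⟩, by simp⟩)
    (fun t r a σ h => by
      by_cases h1 : (∀ v, 1 ≤ K v) ∧ t + 1 ≤ ∑ v, K v
      · obtain ⟨v, M', ψ', h2⟩ := step s c hc.le h1.1 r (h h1.1 (by omega)) h1.2
        exact ⟨v, (M', ψ'), fun _ _ => h2⟩
      · exact ⟨Classical.arbitrary V, (fun _ => Classical.arbitrary V, 0),
          fun x y => (h1 ⟨x, y⟩).elim⟩)
  refine ⟨A, fun hK k hk n r o ho => ?_⟩
  obtain ⟨σ, h⟩ := hA n r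
  have hn : n ≤ ∑ v, K v := by
    have := card_ld o
    rw [Fintype.card_fin] at this
    refine this ▸ sum_le_sum fun v _ => (ho v).trans ?_
    have h1 : (k v : ℝ) ≤ K v := by nlinarith [hk v, (Nat.cast_nonneg (k v) : (0 : ℝ) ≤ k v)]
    exact_mod_cast h1
  exact ⟨(h hK hn).cap, final s c hc hk (h hK hn) o ho⟩

end Pool.Agent.P.MP_709c52_lc.Aug
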