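import Pool.Agent.P.MP_709c52_lc.H99.Wfa

set_option autoImplicit false

namespace Pool.Agent.P.MP_709c52_lc.H99

open Finset

variable {V : Type} [DecidableEq V] [Fintype V]

lemma mn_up {t : ℕ} (g : ℕ → V → ℝ) (σ : ℕ → V) (a : V) :
    mn (t + 1) g (· = up (ld (range t) σ) a) ≤ mn t g (· = ld (range t) σ) + g t a := by
  obtain ⟨M, hM, eM⟩ := mn_att g (p := (· = ld (range t) σ)) (σ := σ) rfl
  have e : ∀ i ∈ range t, Function.update M t a i = M i := fun i hi =>
    Function.update_of_ne (mem_range.1 hi).ne _ _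
  have := mn_le g (t := t + 1) (p := (· = up (ld (range t) σ) a)) (σ := Function.update M t a) (by
    funext v
    rw [ld_succ, ld_congr e, hM, Function.update_self]
    rfl)
  rwa [sum_range_succ, Function.update_self, sum_congr rfl fun i hi => by rw [e i hi], ← eM] at this

variable {pick : (V → ℝ) → (V → ℕ) → V} {k : ℕ}
  (hp : ∀ (f : V → ℝ) (x : V → ℕ) (a : V), x a < k → x (pick f x) < k ∧ f (pick f x) ≤ f a)
  {N : Type*} [PseudoMetricSpace N] (s : V → N) (r : ℕ → N)
include hp

lemma potential' {n : ℕ} (o : ℕ → V) (ho : ∀ v, ld (range n) o v ≤ k) (T : Finset V)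
    (hT : ∀ t < n, ∀ v ∉ T, ld (range t) (dec pick fun i u => dist (s u) (r i)) v < k)
    (t : ℕ) (ht : t ≤ n) :
    ∑ i ∈ range t, dist (s (dec pick (fun i u => dist (s u) (r i)) i)) (r i) +
        mn t (fun i u => dist (s u) (r i)) (· = ld (range t) (dec pick fun i u => dist (s u) (r i))) ≤
      ∑ i ∈ range t, (2 * dist (s (o i)) (r i) - ∑ v ∈ T, dist (s v) (r i)) +
        ∑ v ∈ T, mn t (fun i u => dist (s u) (r i) + dist (s v) (s u)) (fun y => ∀ w, y w ≤ k) := by
  set g : ℕ → V → ℝ := fun i u => dist (s u) (r i) with hg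
  induction t with
  | zero =>
    have h1 := mn_le g (t := 0) (p := (· = ld (range 0) (dec pick g))) (σ := dec pick g) rfl
    have h2 : ∀ v, 0 ≤ mn 0 (fun i u => dist (s u) (r i) + dist (s v) (s u))
        (fun y => ∀ w, y w ≤ k) := fun v => by
      obtain ⟨τ, -, e⟩ := mn_att (t := 0) (fun i u => dist (s u) (r i) + dist (s v) (s u))
        (p := fun y => ∀ w, y w ≤ k) (σ := o) (fun w => by simp [ld])
      simp [e]
    have h3 := sum_nonneg fun v (_ : v ∈ T) => h2 v
    simp only [range_zero, sum_empty] at h1 ⊢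
    linarith
  | succ t ih =>
    have ih := ih (by omega)
    have ho' : ∀ v, ld (range (t + 1)) o v ≤ k := fun v =>
      (ld_mono (range_subset_range.2 ht) o v).trans (ho v)
    have h1 : ∀ a, X pick g t a < k →
        mn (t + 1) g (· = up (X pick g t) (dec pick g t)) + g t (dec pick g t) ≤
          mn (t + 1) g (· = up (X pick g t) a) + g t a := fun a ha =>
      (hp (fun a => mn (t + 1) g (· = up (X pick g t) a) + g t a) _ a ha).2
    have h3 : ∀ v, mn t (fun i u => dist (s u) (r i) + dist (s v) (s u)) (fun y => ∀ w, y w ≤ k) +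
        dist (s v) (r t) ≤
        mn (t + 1) (fun i u => dist (s u) (r i) + dist (s v) (s u)) (fun y => ∀ w, y w ≤ k) := by
      intro v
      obtain ⟨τ, hτ, e⟩ := mn_att (fun i u => dist (s u) (r i) + dist (s v) (s u))
        (p := fun y => ∀ w, y w ≤ k) ho'
      have := mn_le (t := t) (fun i u => dist (s u) (r i) + dist (s v) (s u))
        (p := fun y => ∀ w, y w ≤ k) (σ := τ) fun w =>
          (ld_mono (range_subset_range.2 (Nat.le_succ t)) τ w).trans (hτ w)
      rw [e, sum_range_succ]
      linarith [dist_triangle (s v) (s (τ t)) (r t)]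
    have e1 : ld (range (t + 1)) (dec pick g) = up (X pick g t) (dec pick g t) := by
      rw [← X_eq]
      rfl
    rw [e1, sum_range_succ, sum_range_succ]
    by_cases hm : o t ∈ T
    · obtain ⟨a, ha, hA⟩ := step g (fun u => dist (s (o t)) (s u)) (dec pick g) o ho'
      rw [← X_eq] at ha hA
      have h2 : g t a ≤ dist (s (o t)) (r t) + dist (s (o t)) (s a) :=
        (dist_triangle_left _ _ _).trans_eq (add_comm _ _)
      have h4 := sum_le_sum fun v (_ : v ∈ T.erase (o t)) => h3 v
      have h5 := h1 a ha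
      rw [sum_add_distrib] at h4
      rw [← X_eq, ← sum_erase_add T _ hm] at ih
      rw [← sum_erase_add T _ hm, ← sum_erase_add T (fun v => mn (t + 1) _ _) hm]
      simp only [hg] at *
      linarith
    · have h2 := mn_up (t := t) g (dec pick g) (o t)
      have h5 := hT t (by omega) _ hm
      rw [← X_eq] at h2 h5 ih
      have h4 := sum_le_sum fun v (_ : v ∈ T) => h3 v
      have h6 := h1 _ h5
      rw [sum_add_distrib] at h4
      simp only [hg] at *
      linarith

/-- The work function algorithm pays at most `2 j - 1` times the optimum on `n ≤ k j` requests. -/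
lemma wfa' {n j : ℕ} (o : ℕ → V) (ho : ∀ v, ld (range n) o v ≤ k) (hn : n ≤ k * Fintype.card V)
    (h1n : 1 ≤ n) (hj : n ≤ k * j) :
    ∑ i ∈ range n, dist (s (dec pick (fun i u => dist (s u) (r i)) i)) (r i) ≤
      (2 * j - 1) * ∑ i ∈ range n, dist (s (o i)) (r i) := by
  set g : ℕ → V → ℝ := fun i u => dist (s u) (r i) with hg
  set T := univ.filter fun v => k ≤ ld (range (n - 1)) (dec pick g) v with hT
  have hc : T.card + 1 ≤ j := by
    have c1 : T.card * k ≤ n - 1 := by
      rw [← smul_eq_mul, ← sum_const, ← card_range (n - 1), ← sum_ld _ (dec pick g)]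
      exact (sum_le_sum fun v hv => (mem_filter.1 hv).2).trans (sum_le_sum_of_subset (subset_univ _))
    refine Nat.lt_of_mul_lt_mul_left (a := k) ?_
    rw [mul_comm]
    omega
  obtain ⟨q, hq, eq⟩ := mn_att g (p := fun y => ∀ w, y w ≤ k) ho
  have h0 := mn_le g (p := fun y => ∀ w, y w ≤ k) ho
  have h1 := potential' hp s r q hq T (fun t ht v hv => by
    refine (ld_mono (range_subset_range.2 (by omega : t ≤ n - 1)) _ v).trans_lt ?_
    simpa [hT] using hv) n le_rfl
  obtain ⟨τ, hτ, eτ⟩ := mn_att g (t := n) (p := (· = ld (range n) (dec pick g))) (σ := dec pick g) rfl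
  have h2 := mn_le g (t := n) (p := fun y => ∀ w, y w ≤ k) (σ := τ) fun w => by
    rw [hτ]
    exact feas hp g n hn w
  have h3 := sum_le_sum fun v (_ : v ∈ T) =>
    mn_le (fun i u => dist (s u) (r i) + dist (s v) (s u)) (p := fun y => ∀ w, y w ≤ k) hq
  rw [sum_comm] at h3
  have h4 : ∀ i ∈ range n, (2 * dist (s (q i)) (r i) - ∑ v ∈ T, dist (s v) (r i)) +
      ∑ v ∈ T, (dist (s (q i)) (r i) + dist (s v) (s (q i))) ≤ 2 * j * dist (s (q i)) (r i) := by
    intro i _
    have c1 : ∑ v ∈ T, (dist (s (q i)) (r i) + dist (s v) (s (q i))) ≤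
        ∑ v ∈ T, (dist (s v) (r i) + 2 * dist (s (q i)) (r i)) :=
      sum_le_sum fun v _ => by linarith [dist_triangle_right (s v) (s (q i)) (r i)]
    have c2 : ((T.card : ℝ) + 1) * dist (s (q i)) (r i) ≤ j * dist (s (q i)) (r i) :=
      mul_le_mul_of_nonneg_right (by exact_mod_cast hc) dist_nonneg
    rw [sum_add_distrib (f := fun v => dist (s v) (r i)), sum_const, nsmul_eq_mul] at c1
    linarith
  have h5 := sum_le_sum h4
  rw [sum_add_distrib, ← mul_sum] at h5
  have h6 : (1 : ℝ) ≤ j := by exact_mod_cast (by omega : 1 ≤ j)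
  simp only [hg] at *
  have h7 : ∑ i ∈ range n, dist (s (q i)) (r i) ≤ ∑ i ∈ range n, dist (s (o i)) (r i) := by
    linarith
  nlinarith

omit hp

/-- The online form. -/
theorem online' [Nonempty V] (k : ℕ) :
    ∃ A : (i : ℕ) → (Fin i → N) → N → V, ∀ (n : ℕ) (r : Fin n → N), n ≤ k * Fintype.card V →
      (∀ v, (univ.filter fun i : Fin n =>
        A i (fun j => r (j.castLE i.isLt.le)) (r i) = v).card ≤ k) ∧
      ∀ j : ℕ, 1 ≤ n → n ≤ k * j →
        ∀ o : Fin n → V, (∀ v, (univ.filter fun i => o i = v).card ≤ k) →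
          ∑ i : Fin n, dist (s (A i (fun j => r (j.castLE i.isLt.le)) (r i))) (r i) ≤
            (2 * j - 1) * ∑ i, dist (s (o i)) (r i) := by
  obtain ⟨pick, hp⟩ := exists_pick (V := V) k
  refine ⟨fun i h q => dec pick (fun j u => dist (s u) (if hj : j < i then h ⟨j, hj⟩ else q)) i,
    fun n r hn => ?_⟩
  set v0 : V := Classical.arbitrary V
  set R : ℕ → N := fun j => if hj : j < n then r ⟨j, hj⟩ else s v0 with hR
  have hRr : ∀ i : Fin n, R i = r i := fun i => by simp [hR]
  have e : ∀ i : Fin n, dec pick (fun j u => dist (s u)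
      (if hj : j < i then r ((⟨j, hj⟩ : Fin i).castLE i.isLt.le) else r i)) i =
      dec pick (fun j u => dist (s u) (R j)) i := fun i => by
    refine dec_congr pick i fun j hj => ?_
    funext u
    have hjn : j < n := by omega
    by_cases h : j < i
    · simp [hR, h, hjn]
    · obtain rfl : j = i := by omega
      simp [hR]
  have hld : ∀ (σ : ℕ → V) (v : V),
      (univ.filter fun i : Fin n => σ i = v).card = ld (range n) σ v := fun σ v => by
    rw [card_filter, ld, Finset.sum_range]
  simp only [e]
  refine ⟨fun v => by rw [hld]; exact feas hp _ n hn v, fun j h1 hj o ho => ?_⟩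
  set O : ℕ → V := fun j => if hj : j < n then o ⟨j, hj⟩ else v0 with hO
  have hOo : ∀ i : Fin n, O i = o i := fun i => by simp [hO]
  have := wfa' hp s R O (n := n) (fun v => by
    rw [← hld]
    simpa only [hOo] using ho v) hn h1 hj
  rw [Finset.sum_range, Finset.sum_range] at this
  simpa only [hRr, hOo] using this

omit [Fintype V] in
/-- A sequence that takes every value at most `k` times changes its value often. -/
lemma changes {n k : ℕ} (a : Fin (n + 1) → V)
    (h : ∀ v, (univ.filter fun i => a i = v).card ≤ k) :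
    n + 1 ≤ k * ((univ.filter fun i : Fin n => a i.succ ≠ a i.castSucc).card + 1) := by
  set C := univ.filter fun i : Fin n => a i.succ ≠ a i.castSucc with hC
  have h1 : ∀ i, a i ∈ insert (a 0) (C.image fun i => a i.succ) := fun i => by
    induction i using Fin.induction with
    | zero => exact mem_insert_self _ _
    | succ i ih =>
      by_cases e : a i.succ = a i.castSucc
      · rwa [e]
      · exact mem_insert_of_mem (mem_image_of_mem _ (by simpa [hC] using e))
  have h2 := card_le_mul_card_image_of_maps_to (s := univ) (fun i _ => h1 i) k fun v _ => h v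
  rw [card_univ, Fintype.card_fin] at h2
  exact h2.trans (Nat.mul_le_mul_left k
    ((card_insert_le _ _).trans (Nat.succ_le_succ card_image_le)))

end Pool.Agent.P.MP_709c52_lc.H99
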