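import Mathlib

set_option autoImplicit false

namespace Pool.Agent.P.MP_709c52_lc.H99

open Finset

variable {V : Type} [DecidableEq V] [Fintype V]

/-- Number of indices in `T` sent to `v`. -/
def ld (T : Finset ℕ) (σ : ℕ → V) (v : V) : ℕ := ∑ i ∈ T, if σ i = v then 1 else 0

omit [Fintype V] in
lemma ld_succ (t : ℕ) (σ : ℕ → V) (v : V) :
    ld (range (t + 1)) σ v = ld (range t) σ v + if σ t = v then 1 else 0 := by
  simp only [ld, sum_range_succ]

omit [Fintype V] in
lemma ld_mono {T U : Finset ℕ} (h : T ⊆ U) (σ : ℕ → V) (v : V) : ld T σ v ≤ ld U σ v :=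
  sum_le_sum_of_subset h

omit [Fintype V] in
lemma ld_congr {T : Finset ℕ} {σ τ : ℕ → V} (h : ∀ i ∈ T, σ i = τ i) : ld T σ = ld T τ := by
  funext v
  exact sum_congr rfl fun i hi => by rw [h i hi]

lemma sum_ld (T : Finset ℕ) (σ : ℕ → V) : ∑ v, ld T σ v = T.card := by
  unfold ld
  rw [sum_comm]
  simp

omit [Fintype V] in
/-- Alternating trail: switching the indices of `P` from `M` to `M'` and adding a unit at `b`
adds a unit at a site `a` that was not full. -/
lemma exch (M M' : ℕ → V) (T : Finset ℕ) : ∀ (b : V) (c : V → ℕ),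
    (∀ v, ld T M' v + (if b = v then 1 else 0) ≤ c v) →
    ∃ (P : Finset ℕ) (a : V), ld T M a < c a ∧
      ∀ (β : Type) [AddCommMonoid β] (h : V → β),
        ∑ i ∈ T, h (if i ∈ P then M' i else M i) + h b = ∑ i ∈ T, h (M i) + h a := by
  induction T using Finset.strongInduction with
  | H T ih =>
  intro b c hc
  by_cases hb : ld T M b < c b
  · exact ⟨∅, b, hb, fun β _ h => by simp⟩
  have h1 : ld T M b ≠ 0 := by
    have := hc b
    simp only [if_true] at this
    omega
  obtain ⟨i, hi, hib⟩ := exists_ne_zero_of_sum_ne_zero h1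
  have hib : M i = b := by
    by_contra hne
    simp [hne] at hib
  have e1 : ∀ (σ : ℕ → V) (v : V), ld T σ v = ld (T.erase i) σ v + if σ i = v then 1 else 0 :=
    fun σ v => (sum_erase_add T (fun j => if σ j = v then 1 else 0) hi).symm
  obtain ⟨P, a, ha, hP⟩ := ih (T.erase i) (erase_ssubset hi) (M' i)
    (fun v => c v - if b = v then 1 else 0) (fun v => by
      have := hc v
      rw [e1 M' v] at this
      omega)
  refine ⟨insert i P, a, ?_, fun β _ h => ?_⟩
  · rw [e1 M a, hib]
    omega
  · rw [← sum_erase_add T _ hi, ← sum_erase_add T (fun j => h (M j)) hi, hib]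
    have e2 : ∑ j ∈ T.erase i, h (if j ∈ insert i P then M' j else M j) =
        ∑ j ∈ T.erase i, h (if j ∈ P then M' j else M j) :=
      sum_congr rfl fun j hj => by simp [ne_of_mem_erase hj]
    rw [e2]
    simp only [mem_insert_self, if_true]
    rw [hP β h]
    abel

/-- Least value of the first `t` costs over the assignments whose load vector satisfies `p`. -/
noncomputable def mn (t : ℕ) (g : ℕ → V → ℝ) (p : (V → ℕ) → Prop) : ℝ :=
  sInf {c | ∃ σ : ℕ → V, p (ld (range t) σ) ∧ c = ∑ i ∈ range t, g i (σ i)}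

lemma fin_vals (t : ℕ) (g : ℕ → V → ℝ) (p : (V → ℕ) → Prop) :
    {c | ∃ σ : ℕ → V, p (ld (range t) σ) ∧ c = ∑ i ∈ range t, g i (σ i)}.Finite := by
  refine (Set.finite_range fun τ : Fin t → V => ∑ i : Fin t, g i (τ i)).subset ?_
  rintro c ⟨σ, -, rfl⟩
  exact ⟨fun i => σ i, (Finset.sum_range fun i => g i (σ i)).symm⟩

lemma mn_le {t : ℕ} (g : ℕ → V → ℝ) {p : (V → ℕ) → Prop} {σ : ℕ → V} (h : p (ld (range t) σ)) :
    mn t g p ≤ ∑ i ∈ range t, g i (σ i) :=
  csInf_le (fin_vals t g p).bddBelow ⟨σ, h, rfl⟩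

lemma mn_att {t : ℕ} (g : ℕ → V → ℝ) {p : (V → ℕ) → Prop} {σ : ℕ → V} (h : p (ld (range t) σ)) :
    ∃ τ : ℕ → V, p (ld (range t) τ) ∧ mn t g p = ∑ i ∈ range t, g i (τ i) :=
  Set.Nonempty.csInf_mem (s := {c | ∃ σ : ℕ → V, p (ld (range t) σ) ∧ c = ∑ i ∈ range t, g i (σ i)})
    ⟨_, σ, h, rfl⟩ (fin_vals t g p)

omit [Fintype V] in
lemma mn_congr {t : ℕ} {g g' : ℕ → V → ℝ} (h : ∀ i < t, g i = g' i) (p : (V → ℕ) → Prop) :
    mn t g p = mn t g' p := by
  have : ∀ σ : ℕ → V, ∑ i ∈ range t, g i (σ i) = ∑ i ∈ range t, g' i (σ i) :=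
    fun σ => sum_congr rfl fun i hi => by rw [h i (mem_range.1 hi)]
  simp only [mn, this]

/-- One more unit at `a`. -/
def up (x : V → ℕ) (a : V) : V → ℕ := fun v => x v + if a = v then 1 else 0

/-- The exchange inequality, for arbitrary costs `g` and prices `π`. -/
lemma step {t k : ℕ} (g : ℕ → V → ℝ) (π : V → ℝ) (σ τ : ℕ → V)
    (hτ : ∀ v, ld (range (t + 1)) τ v ≤ k) :
    ∃ a, ld (range t) σ a < k ∧
      mn (t + 1) g (· = up (ld (range t) σ) a) + π a +
          mn t (fun i u => g i u + π u) (fun y => ∀ v, y v ≤ k) ≤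
        mn t g (· = ld (range t) σ) +
          mn (t + 1) (fun i u => g i u + π u) (fun y => ∀ v, y v ≤ k) := by
  obtain ⟨M, hM, eM⟩ := mn_att g (p := (· = ld (range t) σ)) (σ := σ) rfl
  obtain ⟨M', hM', eM'⟩ := mn_att (fun i u => g i u + π u) (p := fun y => ∀ v, y v ≤ k) hτ
  obtain ⟨P, a, ha, hP⟩ := exch M M' (range t) (M' t) (fun _ => k) (fun v => by
    rw [← ld_succ]
    exact hM' v)
  refine ⟨a, hM ▸ ha, ?_⟩
  set M1 : ℕ → V := fun i => if i ∈ P ∨ i = t then M' i else M i with hM1
  set M2 : ℕ → V := fun i => if i ∈ P then M i else M' i with hM2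
  have a1 : ∀ i ∈ range t, M1 i = if i ∈ P then M' i else M i := fun i hi => by
    simp [hM1, (mem_range.1 hi).ne]
  have a2 : M1 t = M' t := by simp [hM1]
  have l1 : ld (range (t + 1)) M1 = up (ld (range t) σ) a := by
    funext v
    rw [ld_succ, ld_congr a1, a2, ← hM]
    exact hP ℕ fun u => if u = v then 1 else 0
  have l2 : ∀ v, ld (range t) M2 v ≤ k := fun v => by
    have e1 : ld (range t) M1 v + ld (range t) M2 v = ld (range t) M v + ld (range t) M' v := by
      rw [ld_congr a1]
      simp only [ld, ← sum_add_distrib]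
      refine sum_congr rfl fun i _ => ?_
      by_cases hi : i ∈ P <;> simp [hM2, hi, add_comm]
    have e2 := congrFun l1 v
    rw [ld_succ, a2, ← hM] at e2
    have e3 := hM' v
    rw [ld_succ] at e3
    simp only [up] at e2
    omega
  have b1 := mn_le g (p := (· = up (ld (range t) σ) a)) l1
  have b2 := mn_le (fun i u => g i u + π u) (p := fun y => ∀ v, y v ≤ k) l2
  have b3 := hP ℝ π
  rw [← sum_congr rfl fun i hi => congrArg π (a1 i hi)] at b3
  have b4 : ∑ i ∈ range t, (g i (M1 i) + π (M1 i)) + ∑ i ∈ range t, (g i (M2 i) + π (M2 i)) =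
      ∑ i ∈ range t, (g i (M i) + π (M i)) + ∑ i ∈ range t, (g i (M' i) + π (M' i)) := by
    simp only [← sum_add_distrib]
    refine sum_congr rfl fun i hi => ?_
    rw [a1 i hi]
    by_cases hi : i ∈ P
    · simp only [hM2, hi, if_true]
      ring
    · simp only [hM2, hi, if_false]
  rw [sum_range_succ, a2] at b1
  rw [sum_range_succ] at eM'
  rw [sum_add_distrib (f := fun i => g i (M1 i)), sum_add_distrib (f := fun i => g i (M i))] at b4
  linarith

omit [DecidableEq V] in
lemma exists_pick [Nonempty V] (k : ℕ) : ∃ pick : (V → ℝ) → (V → ℕ) → V,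
    ∀ (f : V → ℝ) (x : V → ℕ) (a : V), x a < k → x (pick f x) < k ∧ f (pick f x) ≤ f a := by
  have : ∀ (f : V → ℝ) (x : V → ℕ), ∃ b, ∀ a, x a < k → x b < k ∧ f b ≤ f a := fun f x => by
    by_cases h : (univ.filter fun a => x a < k).Nonempty
    · obtain ⟨b, hb, hb'⟩ := exists_min_image _ f h
      exact ⟨b, fun a ha => ⟨(mem_filter.1 hb).2, hb' a (by simpa using ha)⟩⟩
    · exact ⟨Classical.arbitrary V, fun a ha => (h ⟨a, by simpa using ha⟩).elim⟩
  choose pick hp using this
  exact ⟨pick, hp⟩

variable (pick : (V → ℝ) → (V → ℕ) → V)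

/-- Load vector of the work function algorithm after `t` requests with costs `g`. -/
noncomputable def X (g : ℕ → V → ℝ) : ℕ → V → ℕ
  | 0 => fun _ => 0
  | t + 1 => up (X g t) (pick (fun a => mn (t + 1) g (· = up (X g t) a) + g t a) (X g t))

/-- Site chosen for request `t`. -/
noncomputable def dec (g : ℕ → V → ℝ) (t : ℕ) : V :=
  pick (fun a => mn (t + 1) g (· = up (X pick g t) a) + g t a) (X pick g t)

omit [Fintype V] in
lemma X_eq (g : ℕ → V → ℝ) (t : ℕ) : X pick g t = ld (range t) (dec pick g) := by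
  induction t with
  | zero => funext v; simp [X, ld]
  | succ t ih =>
    funext v
    rw [ld_succ, ← ih]
    rfl

omit [Fintype V] in
lemma X_congr {g g' : ℕ → V → ℝ} (t : ℕ) (h : ∀ i < t, g i = g' i) : X pick g t = X pick g' t := by
  induction t with
  | zero => rfl
  | succ t ih =>
    have e := ih fun i hi => h i (by omega)
    simp only [X, e, mn_congr h, h t (by omega)]

omit [Fintype V] in
lemma dec_congr {g g' : ℕ → V → ℝ} (t : ℕ) (h : ∀ i < t + 1, g i = g' i) :
    dec pick g t = dec pick g' t := by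
  have e := X_congr pick t fun i hi => h i (by omega)
  simp only [dec, e, mn_congr h, h t (by omega)]

variable {pick} {k : ℕ}
  (hp : ∀ (f : V → ℝ) (x : V → ℕ) (a : V), x a < k → x (pick f x) < k ∧ f (pick f x) ≤ f a)
include hp

lemma feas (g : ℕ → V → ℝ) (t : ℕ) (ht : t ≤ k * Fintype.card V) (v : V) :
    ld (range t) (dec pick g) v ≤ k := by
  induction t with
  | zero => simp [ld]
  | succ t ih =>
    obtain ⟨a, ha⟩ : ∃ a, X pick g t a < k := by
      by_contra hn
      push Not at hn
      have h1 : ∑ _v : V, k ≤ ∑ v, X pick g t v := sum_le_sum fun v _ => hn v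
      rw [X_eq, sum_ld] at h1
      simp only [sum_const, card_univ, smul_eq_mul, card_range] at h1
      rw [mul_comm] at h1
      omega
    have h2 : X pick g t (dec pick g t) < k := (hp _ _ a ha).1
    rw [X_eq] at h2
    have h3 := ih (by omega)
    rw [ld_succ]
    split_ifs with h
    · rw [← h]; omega
    · omega

variable {N : Type*} [PseudoMetricSpace N] (s : V → N) (r : ℕ → N)

lemma potential {n : ℕ} (o : ℕ → V) (ho : ∀ v, ld (range n) o v ≤ k) (t : ℕ) (ht : t ≤ n) :
    ∑ i ∈ range t, dist (s (dec pick (fun i u => dist (s u) (r i)) i)) (r i) +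
        mn t (fun i u => dist (s u) (r i)) (· = ld (range t) (dec pick fun i u => dist (s u) (r i))) ≤
      ∑ i ∈ range t, (dist (s (o i)) (r i) - ∑ v ∈ univ.erase (o i), dist (s v) (r i)) +
        ∑ v, mn t (fun i u => dist (s u) (r i) + dist (s v) (s u)) (fun y => ∀ w, y w ≤ k) := by
  set g : ℕ → V → ℝ := fun i u => dist (s u) (r i) with hg
  induction t with
  | zero =>
    have h1 := mn_le g (t := 0) (p := (· = ld (range 0) (dec pick g))) (σ := dec pick g) rfl
    have h2 : ∀ v, 0 ≤ mn 0 (fun i u => dist (s u) (r i) + dist (s v) (s u))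
        (fun y => ∀ w, y w ≤ k) := fun v => by
      obtain ⟨τ, -, e⟩ := mn_att (t := 0) (fun i u => dist (s u) (r i) + dist (s v) (s u))
        (p := fun y => ∀ w, y w ≤ k) (σ := o) (fun w => by simp [ld])
      simp [e]
    have h3 := sum_nonneg fun v (_ : v ∈ (univ : Finset V)) => h2 v
    simp only [range_zero, sum_empty] at h1 ⊢
    linarith
  | succ t ih =>
    have ih := ih (by omega)
    have ho' : ∀ v, ld (range (t + 1)) o v ≤ k := fun v =>
      (ld_mono (range_subset_range.2 ht) o v).trans (ho v)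
    obtain ⟨a, ha, hA⟩ := step g (fun u => dist (s (o t)) (s u)) (dec pick g) o ho'
    rw [← X_eq] at ha hA
    have h1 : mn (t + 1) g (· = up (X pick g t) (dec pick g t)) + g t (dec pick g t) ≤
        mn (t + 1) g (· = up (X pick g t) a) + g t a :=
      (hp (fun a => mn (t + 1) g (· = up (X pick g t) a) + g t a) _ a ha).2
    have h2 : g t a ≤ dist (s (o t)) (r t) + dist (s (o t)) (s a) :=
      (dist_triangle_left _ _ _).trans_eq (add_comm _ _)
    have h3 : ∀ v, mn t (fun i u => dist (s u) (r i) + dist (s v) (s u)) (fun y => ∀ w, y w ≤ k) +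
        dist (s v) (r t) ≤
        mn (t + 1) (fun i u => dist (s u) (r i) + dist (s v) (s u)) (fun y => ∀ w, y w ≤ k) := by
      intro v
      obtain ⟨τ, hτ, e⟩ := mn_att (fun i u => dist (s u) (r i) + dist (s v) (s u))
        (p := fun y => ∀ w, y w ≤ k) ho'
      have := mn_le (t := t) (fun i u => dist (s u) (r i) + dist (s v) (s u))
        (p := fun y => ∀ w, y w ≤ k) (σ := τ) fun w =>
          (ld_mono (range_subset_range.2 (Nat.le_succ t)) τ w).trans (hτ w)
      rw [e, sum_range_succ]
      linarith [dist_triangle (s v) (s (τ t)) (r t)]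
    have h4 := sum_le_sum fun v (_ : v ∈ univ.erase (o t)) => h3 v
    rw [sum_add_distrib] at h4
    have e1 : ld (range (t + 1)) (dec pick g) = up (X pick g t) (dec pick g t) := by
      rw [← X_eq]
      rfl
    rw [← X_eq, ← sum_erase_add univ _ (mem_univ (o t))] at ih
    rw [e1, sum_range_succ, sum_range_succ, ← sum_erase_add univ _ (mem_univ (o t))]
    simp only [hg] at *
    linarith

/-- The work function algorithm is `(2m - 1)`-competitive. -/
lemma wfa {n : ℕ} (o : ℕ → V) (ho : ∀ v, ld (range n) o v ≤ k) (hn : n ≤ k * Fintype.card V) :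
    ∑ i ∈ range n, dist (s (dec pick (fun i u => dist (s u) (r i)) i)) (r i) ≤
      (2 * Fintype.card V - 1) * ∑ i ∈ range n, dist (s (o i)) (r i) := by
  set g : ℕ → V → ℝ := fun i u => dist (s u) (r i) with hg
  obtain ⟨q, hq, eq⟩ := mn_att g (p := fun y => ∀ w, y w ≤ k) ho
  have h0 := mn_le g (p := fun y => ∀ w, y w ≤ k) ho
  have h1 := potential hp s r q hq n le_rfl
  obtain ⟨τ, hτ, eτ⟩ := mn_att g (t := n) (p := (· = ld (range n) (dec pick g))) (σ := dec pick g) rfl
  have h2 := mn_le g (t := n) (p := fun y => ∀ w, y w ≤ k) (σ := τ) fun w => by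
    rw [hτ]
    exact feas hp g n hn w
  have h3 := sum_le_sum fun v (_ : v ∈ (univ : Finset V)) =>
    mn_le (fun i u => dist (s u) (r i) + dist (s v) (s u)) (p := fun y => ∀ w, y w ≤ k) hq
  rw [sum_comm] at h3
  have h4 : ∀ i ∈ range n, (dist (s (q i)) (r i) - ∑ v ∈ univ.erase (q i), dist (s v) (r i)) +
      ∑ v, (dist (s (q i)) (r i) + dist (s v) (s (q i))) ≤
      2 * Fintype.card V * dist (s (q i)) (r i) := by
    intro i _
    have c1 : ∑ v ∈ univ.erase (q i), dist (s v) (s (q i)) ≤
        ∑ v ∈ univ.erase (q i), (dist (s v) (r i) + dist (s (q i)) (r i)) :=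
      sum_le_sum fun v _ => dist_triangle_right _ _ _
    have c2 : ∑ v ∈ univ.erase (q i), dist (s (q i)) (r i) + dist (s (q i)) (r i) =
        Fintype.card V * dist (s (q i)) (r i) := by
      rw [sum_erase_add univ (fun _ => dist (s (q i)) (r i)) (mem_univ (q i))]
      simp
    rw [sum_add_distrib] at c1
    rw [sum_add_distrib, ← sum_erase_add univ (fun v => dist (s v) (s (q i))) (mem_univ (q i))]
    simp only [sum_const, card_univ, nsmul_eq_mul, dist_self] at c1 c2 ⊢
    linarith
  have h5 := sum_le_sum h4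
  rw [sum_add_distrib, ← mul_sum] at h5
  have h6 : (1 : ℝ) ≤ Fintype.card V := by
    have : Nonempty V := ⟨o 0⟩
    exact_mod_cast Fintype.card_pos
  simp only [hg] at *
  have h7 : ∑ i ∈ range n, dist (s (q i)) (r i) ≤ ∑ i ∈ range n, dist (s (o i)) (r i) := by
    linarith
  nlinarith

omit hp

/-- The online form: the decision for request `i` is a function of the earlier requests and of
request `i`. -/
theorem online [Nonempty V] (k : ℕ) :
    ∃ A : (i : ℕ) → (Fin i → N) → N → V, ∀ (n : ℕ) (r : Fin n → N), n ≤ k * Fintype.card V →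
      (∀ v, (univ.filter fun i : Fin n =>
        A i (fun j => r (j.castLE i.isLt.le)) (r i) = v).card ≤ k) ∧
      ∀ o : Fin n → V, (∀ v, (univ.filter fun i => o i = v).card ≤ k) →
        ∑ i : Fin n, dist (s (A i (fun j => r (j.castLE i.isLt.le)) (r i))) (r i) ≤
          (2 * Fintype.card V - 1) * ∑ i, dist (s (o i)) (r i) := by
  obtain ⟨pick, hp⟩ := exists_pick (V := V) k
  refine ⟨fun i h q => dec pick (fun j u => dist (s u) (if hj : j < i then h ⟨j, hj⟩ else q)) i,
    fun n r hn => ?_⟩
  set v0 : V := Classical.arbitrary V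
  set R : ℕ → N := fun j => if hj : j < n then r ⟨j, hj⟩ else s v0 with hR
  have hRr : ∀ i : Fin n, R i = r i := fun i => by simp [hR]
  have e : ∀ i : Fin n, dec pick (fun j u => dist (s u)
      (if hj : j < i then r ((⟨j, hj⟩ : Fin i).castLE i.isLt.le) else r i)) i =
      dec pick (fun j u => dist (s u) (R j)) i := fun i => by
    refine dec_congr pick i fun j hj => ?_
    funext u
    have hjn : j < n := by omega
    by_cases h : j < i
    · simp [hR, h, hjn]
    · obtain rfl : j = i := by omega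
      simp [hR]
  have hld : ∀ (σ : ℕ → V) (v : V),
      (univ.filter fun i : Fin n => σ i = v).card = ld (range n) σ v := fun σ v => by
    rw [card_filter, ld, Finset.sum_range]
  simp only [e]
  refine ⟨fun v => by rw [hld]; exact feas hp _ n hn v, fun o ho => ?_⟩
  set O : ℕ → V := fun j => if hj : j < n then o ⟨j, hj⟩ else v0 with hO
  have hOo : ∀ i : Fin n, O i = o i := fun i => by simp [hO]
  have := wfa hp s R O (n := n) (fun v => by
    rw [← hld]
    simpa only [hOo] using ho v) hn
  rw [Finset.sum_range, Finset.sum_range] at this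
  simpa only [hRr, hOo] using this

/-- The cruel adversary: start at `c`, then always request the site that was just used. -/
def cruel {N : Type*} (s : V → N) (A : (i : ℕ) → (Fin i → N) → N → V) (c : N) : ℕ → N
  | 0 => c
  | i + 1 => s (A i (fun j => cruel s A c j) (cruel s A c i))
decreasing_by
  · exact Nat.lt_succ_of_lt j.isLt
  · exact Nat.lt_succ_self i

end Pool.Agent.P.MP_709c52_lc.H99
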